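import Mathlib

/-!
A small checker, meant to be run by the kernel, which bounds the weight of a set of natural numbers
no two elements of which differ by one of twelve given numbers.

A natural number `i = (x + 16) + 32 * (y + 16)` codes the lattice point `(x, y)`, so that the twelve
numbers are the codes of the differences `(dx, dy)` that lie on the boundary of the octagon
`|dx| ≤ 4, |dy| ≤ 4, |dx| + |dy| ≤ 6`.
-/

set_option autoImplicit false

namespace Pool.Agent.Helper27_Touch

/-- The set of forbidden differences, as a bit mask. -/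
def dmask : ℕ :=
  2 ^ 4 + 2 ^ 28 + 2 ^ 36 + 2 ^ 60 + 2 ^ 68 + 2 ^ 93 + 2 ^ 99 + 2 ^ 126 + 2 ^ 127 + 2 ^ 128 +
    2 ^ 129 + 2 ^ 130

/-- Adjacency of two codes. -/
def adjb (i j : ℕ) : Bool := (dmask >>> ((i - j) + (j - i))) % 2 == 1

/-- A predicate on codes is independent if no two of its elements are adjacent. -/
def Indep (S : ℕ → Prop) : Prop := ∀ i j, S i → S j → adjb i j = false

/-- Search tree: leaves carry a packed list of weighted triangles. -/
inductive Cert where
  | leaf : ℕ → ℕ → Cert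
  | branch : ℕ → Cert → Cert → Cert

/-- first offset of a triangle type -/
def offA : ℕ → ℕ
  | 0 => 28
  | 1 => 60
  | 2 => 93
  | 3 => 126
  | 4 => 99
  | 5 => 4
  | 6 => 36
  | _ => 68

/-- second offset of a triangle type -/
def offB : ℕ → ℕ
  | 0 => 127
  | 1 => 128
  | 2 => 129
  | 3 => 130
  | 4 => 127
  | 5 => 130
  | 6 => 129
  | _ => 128

/-- code (base `2 ^ 12`) of the triangle `0, offA, offB` -/
def tri (t : ℕ) : ℕ := 1 + 2 ^ (12 * offA t) + 2 ^ (12 * offB t)

/-- Unpack a list of `(type, position, multiplicity)`. -/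
def unpack : ℕ → ℕ → List (ℕ × ℕ × ℕ)
  | 0, _ => []
  | k + 1, c => (c % 8, c / 8 % 1024, c / 8192 % 256) :: unpack k (c / 2 ^ 21)

/-- total multiplicity -/
def mass : List (ℕ × ℕ × ℕ) → ℕ
  | [] => 0
  | e :: l => e.2.2 + mass l

/-- code (base `2 ^ 12`) of the sum of the weighted triangles -/
def code : List (ℕ × ℕ × ℕ) → ℕ
  | [] => 0
  | e :: l => (e.2.2 * tri e.1) * 2 ^ (12 * e.2.1) + code l

def dig (A i : ℕ) : ℕ := A / 2 ^ (12 * i) % 2 ^ 12

def covers (A : ℕ) : List (ℕ × ℕ) → Bool
  | [] => true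
  | e :: P => Nat.ble e.2 (dig A e.1) && covers A P

/-- demand at `v` -/
def dem (v : ℕ) : List (ℕ × ℕ) → ℕ
  | [] => 0
  | e :: P => if e.1 == v then e.2 + dem v P else dem v P

/-- remove `v` -/
def rem1 (v : ℕ) : List (ℕ × ℕ) → List (ℕ × ℕ)
  | [] => []
  | e :: P => if e.1 == v then rem1 v P else e :: rem1 v P

/-- remove `v` and its neighbours -/
def rem2 (v : ℕ) : List (ℕ × ℕ) → List (ℕ × ℕ)
  | [] => []
  | e :: P => if e.1 == v || adjb e.1 v then rem2 v P else e :: rem2 v P

def check : Cert → List (ℕ × ℕ) → ℕ → Bool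
  | Cert.leaf k c, P, bd =>
      Nat.ble (mass (unpack k c)) bd && (Nat.blt (mass (unpack k c)) (2 ^ 12) &&
        covers (code (unpack k c)) P)
  | Cert.branch v a b, P, bd =>
      Nat.ble (dem v P) bd && (check a (rem2 v P) (bd - dem v P) && check b (rem1 v P) bd)

end Pool.Agent.Helper27_Touch
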