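import Pool.Agent.Helper27_Touch.Sound
import Pool.Agent.Helper27_Touch.Cert

set_option autoImplicit false

namespace Pool.Agent.Helper27_Touch

open Finset

/-- The difference vector `d` lies on the boundary of the octagon
`|x| ≤ 4, |y| ≤ 4, |x| + |y| ≤ 6`. -/
def TouchZ (d : ℤ × ℤ) : Prop :=
  |d.1| ≤ 4 ∧ |d.2| ≤ 4 ∧ |d.1| + |d.2| ≤ 6 ∧ (|d.1| = 4 ∨ |d.2| = 4 ∨ |d.1| + |d.2| = 6)

theorem dmask_small : ∀ k, k < 131 → ((dmask >>> k) % 2 == 1) = true →
    k ∈ [4, 28, 36, 60, 68, 93, 99, 126, 127, 128, 129, 130] := by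
  decide +kernel

theorem dmask_mem (k : ℕ) (h : ((dmask >>> k) % 2 == 1) = true) :
    k ∈ [4, 28, 36, 60, 68, 93, 99, 126, 127, 128, 129, 130] := by
  by_cases hk : k < 131
  · exact dmask_small k hk h
  · exfalso
    have h1 : dmask >>> k = 0 := by
      rw [Nat.shiftRight_eq_div_pow]
      apply Nat.div_eq_of_lt
      calc dmask < 2 ^ 131 := by decide +kernel
        _ ≤ 2 ^ k := Nat.pow_le_pow_right (by norm_num) (by omega)
    rw [h1] at h
    simp at h

theorem adjb_touch (x y x' y' : ℕ) (hx : 10 ≤ x ∧ x ≤ 22) (_hy : 10 ≤ y ∧ y ≤ 22)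
    (hx' : 10 ≤ x' ∧ x' ≤ 22) (_hy' : 10 ≤ y' ∧ y' ≤ 22)
    (h : adjb (x + 32 * y) (x' + 32 * y') = true) :
    TouchZ ((x : ℤ) - x', (y : ℤ) - y') := by
  unfold adjb at h
  have h1 := dmask_mem _ h
  simp only [List.mem_cons, List.not_mem_nil, or_false] at h1
  have key : (((x : ℤ) - x' = 4 ∨ (x : ℤ) - x' = -4) ∧ (-2 ≤ (y : ℤ) - y' ∧ (y : ℤ) - y' ≤ 2)) ∨
      (((y : ℤ) - y' = 4 ∨ (y : ℤ) - y' = -4) ∧ (-2 ≤ (x : ℤ) - x' ∧ (x : ℤ) - x' ≤ 2)) ∨
      (((x : ℤ) - x' = 3 ∨ (x : ℤ) - x' = -3) ∧ ((y : ℤ) - y' = 3 ∨ (y : ℤ) - y' = -3)) := by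
    omega
  unfold TouchZ
  simp only
  generalize (x : ℤ) - x' = a at key ⊢
  generalize (y : ℤ) - y' = b at key ⊢
  rcases key with ⟨h1 | h1, h2, h3⟩ | ⟨h1 | h1, h2, h3⟩ | ⟨h1 | h1, h2 | h2⟩
  · subst h1; interval_cases b <;> simp
  · subst h1; interval_cases b <;> simp
  · subst h1; interval_cases a <;> simp
  · subst h1; interval_cases a <;> simp
  · subst h1; subst h2; simp
  · subst h1; subst h2; simp
  · subst h1; subst h2; simp
  · subst h1; subst h2; simp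

theorem window_range : ∀ e ∈ window, (10 ≤ e.1 ∧ e.1 ≤ 22) ∧ (10 ≤ e.2.1 ∧ e.2.1 ≤ 22) := by
  decide +kernel

theorem windowN_nodup : (windowN.map Prod.fst).Nodup := by
  decide +kernel

theorem window_total : (window.map fun e => e.2.2).sum = 9755 := by
  decide +kernel

/-- lattice point seen from `t` through the window entry `e` -/
def look (t : ℤ × ℤ) (e : ℕ × ℕ × ℕ) : ℤ × ℤ := (t.1 + ((e.1 : ℤ) - 16), t.2 + ((e.2.1 : ℤ) - 16))

open Classical in
theorem window_bound (S : Finset (ℤ × ℤ)) (hS : ∀ p ∈ S, ∀ q ∈ S, ¬ TouchZ (p - q))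
    (t : ℤ × ℤ) : (window.map fun e => if look t e ∈ S then e.2.2 else 0).sum ≤ 2438 := by
  let S' : ℕ → Prop := fun i => ∃ a b : ℕ, (10 ≤ a ∧ a ≤ 22) ∧ (10 ≤ b ∧ b ≤ 22) ∧
    i = a + 32 * b ∧ (t.1 + ((a : ℤ) - 16), t.2 + ((b : ℤ) - 16)) ∈ S
  have hI : Indep S' := by
    rintro i j ⟨a, b, ha, hb, hi, hab⟩ ⟨c, d, hc, hd, hj, hcd⟩
    by_contra hne
    have h1 : adjb i j = true := by simpa using hne
    rw [hi, hj] at h1
    have h2 := adjb_touch a b c d ha hb hc hd h1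
    apply hS _ hab _ hcd
    have h3 : ((t.1 + ((a : ℤ) - 16), t.2 + ((b : ℤ) - 16)) : ℤ × ℤ) -
        (t.1 + ((c : ℤ) - 16), t.2 + ((d : ℤ) - 16)) = ((a : ℤ) - c, (b : ℤ) - d) := by
      ext
      · simp only [Prod.fst_sub]; ring
      · simp only [Prod.snd_sub]; ring
    rw [h3]
    exact h2
  have h := check_sound S' hI cert windowN 2438 windowN_nodup check_cert
  refine le_trans ?_ h
  unfold windowN
  have hr := window_range
  revert hr
  generalize window = L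
  intro hr
  induction L with
  | nil => simp [wt]
  | cons e L ih =>
    simp only [List.map_cons, List.sum_cons, wt]
    have ih' := ih fun e' he' => hr e' (by simp [he'])
    have he := hr e (by simp)
    by_cases hl : look t e ∈ S
    · have : S' (e.1 + 32 * e.2.1) := ⟨e.1, e.2.1, he.1, he.2, rfl, hl⟩
      simp only [hl, this, if_true]
      omega
    · simp only [hl, if_false]
      omega

open Classical in
theorem count_one (n : ℕ) (S : Finset (ℤ × ℤ))
    (hn : S ⊆ Ico (0 : ℤ) n ×ˢ Ico (0 : ℤ) n) (e : ℕ × ℕ × ℕ)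
    (he : (10 ≤ e.1 ∧ e.1 ≤ 22) ∧ (10 ≤ e.2.1 ∧ e.2.1 ≤ 22)) :
    ∑ t ∈ Ico (-6 : ℤ) (n + 6) ×ˢ Ico (-6 : ℤ) (n + 6), (if look t e ∈ S then e.2.2 else 0) =
      e.2.2 * S.card := by
  rw [← Finset.sum_filter, Finset.sum_const, smul_eq_mul, mul_comm]
  congr 1
  have hinj : Function.Injective (fun t => look t e) := by
    intro a b hab
    simp only [look, Prod.mk.injEq] at hab
    ext
    · linarith [hab.1]
    · linarith [hab.2]
  rw [← Finset.card_image_of_injective _ hinj]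
  congr 1
  ext s
  simp only [mem_image, mem_filter]
  constructor
  · rintro ⟨t, ⟨_, ht⟩, rfl⟩
    exact ht
  · intro hs
    have h := hn hs
    rw [mem_product, mem_Ico, mem_Ico] at h
    have hl : look (s.1 - ((e.1 : ℤ) - 16), s.2 - ((e.2.1 : ℤ) - 16)) e = s := by
      unfold look
      ext
      · simp
      · simp
    refine ⟨(s.1 - ((e.1 : ℤ) - 16), s.2 - ((e.2.1 : ℤ) - 16)), ⟨?_, ?_⟩, hl⟩
    · rw [mem_product, mem_Ico, mem_Ico]
      simp only
      omega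
    · rw [hl]; exact hs

open Classical in
theorem count_all (n : ℕ) (S : Finset (ℤ × ℤ))
    (hn : S ⊆ Ico (0 : ℤ) n ×ˢ Ico (0 : ℤ) n) (L : List (ℕ × ℕ × ℕ))
    (hL : ∀ e ∈ L, (10 ≤ e.1 ∧ e.1 ≤ 22) ∧ (10 ≤ e.2.1 ∧ e.2.1 ≤ 22)) :
    ∑ t ∈ Ico (-6 : ℤ) (n + 6) ×ˢ Ico (-6 : ℤ) (n + 6),
      (L.map fun e => if look t e ∈ S then e.2.2 else 0).sum =
      (L.map fun e => e.2.2).sum * S.card := by
  induction L with
  | nil => simp
  | cons e L ih =>
    simp only [List.map_cons, List.sum_cons, sum_add_distrib, add_mul]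
    rw [ih fun e' he' => hL e' (by simp [he']), count_one n S hn e (hL e (by simp))]

/-- An independent set inside the `n × n` box has fewer than about a quarter of its points. -/
theorem box_bound (n : ℕ) (S : Finset (ℤ × ℤ))
    (hn : S ⊆ Ico (0 : ℤ) n ×ˢ Ico (0 : ℤ) n) (hS : ∀ p ∈ S, ∀ q ∈ S, ¬ TouchZ (p - q)) :
    9755 * S.card ≤ 2438 * (n + 12) ^ 2 := by
  classical
  rw [← window_total, ← count_all n S hn window window_range]
  calc ∑ t ∈ Ico (-6 : ℤ) (n + 6) ×ˢ Ico (-6 : ℤ) (n + 6),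
      (window.map fun e => if look t e ∈ S then e.2.2 else 0).sum
      ≤ ∑ t ∈ Ico (-6 : ℤ) (n + 6) ×ˢ Ico (-6 : ℤ) (n + 6), 2438 :=
        sum_le_sum fun t _ => by
          convert window_bound S hS t
    _ = 2438 * (n + 12) ^ 2 := by
        rw [sum_const, smul_eq_mul, card_product, Int.card_Ico]
        have : ((n : ℤ) + 6 - -6).toNat = n + 12 := by omega
        rw [this]
        ring

/-- The octagon `|x| ≤ 2, |y| ≤ 2, |x| + |y| ≤ 3`. -/
def oct : Set (EuclideanSpace ℝ (Fin 2)) :=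
  {z | (z 0 ≤ 2 ∧ -z 0 ≤ 2) ∧ (z 1 ≤ 2 ∧ -z 1 ≤ 2) ∧
    (z 0 + z 1 ≤ 3 ∧ z 0 - z 1 ≤ 3) ∧ (-z 0 + z 1 ≤ 3 ∧ -z 0 - z 1 ≤ 3)}

theorem oct_convex : Convex ℝ oct := by
  intro x hx y hy a b ha hb hab
  unfold oct at *
  simp only [Set.mem_ofPred_eq, PiLp.add_apply, PiLp.smul_apply, smul_eq_mul] at *
  obtain ⟨⟨x1, x2⟩, ⟨x3, x4⟩, ⟨x5, x6⟩, ⟨x7, x8⟩⟩ := hx
  obtain ⟨⟨y1, y2⟩, ⟨y3, y4⟩, ⟨y5, y6⟩, ⟨y7, y8⟩⟩ := hy
  have hb' : b = 1 - a := by linarith
  subst hb'
  refine ⟨⟨?_, ?_⟩, ⟨?_, ?_⟩, ⟨?_, ?_⟩, ⟨?_, ?_⟩⟩ <;> nlinarith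

theorem continuous_coord (i : Fin 2) :
    Continuous fun z : EuclideanSpace ℝ (Fin 2) => z i := by fun_prop

theorem oct_closed : IsClosed oct := by
  unfold oct
  have h0 := continuous_coord 0
  have h1 := continuous_coord 1
  have c2 : Continuous fun _ : EuclideanSpace ℝ (Fin 2) => (2 : ℝ) := continuous_const
  have c3 : Continuous fun _ : EuclideanSpace ℝ (Fin 2) => (3 : ℝ) := continuous_const
  exact ((isClosed_le h0 c2).inter (isClosed_le h0.neg c2)).inter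
    (((isClosed_le h1 c2).inter (isClosed_le h1.neg c2)).inter
    (((isClosed_le (h0.add h1) c3).inter (isClosed_le (h0.sub h1) c3)).inter
    ((isClosed_le (h0.neg.add h1) c3).inter (isClosed_le (h0.neg.sub h1) c3))))

theorem oct_compact : IsCompact oct := by
  apply Metric.isCompact_of_isClosed_isBounded oct_closed
  apply (Metric.isBounded_closedBall (x := (0 : EuclideanSpace ℝ (Fin 2))) (r := 4)).subset
  intro z hz
  unfold oct at hz
  simp only [Set.mem_ofPred_eq] at hz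
  rw [mem_closedBall_zero_iff, EuclideanSpace.norm_eq]
  rw [Real.sqrt_le_left (by norm_num)]
  simp only [Fin.sum_univ_two, Real.norm_eq_abs, sq_abs]
  nlinarith [hz.1.1, hz.1.2, hz.2.1.1, hz.2.1.2]

theorem oct_interior : (interior oct).Nonempty := by
  refine ⟨0, ?_⟩
  rw [mem_interior_iff_mem_nhds]
  have h : Metric.ball (0 : EuclideanSpace ℝ (Fin 2)) 1 ⊆ oct := by
    intro z hz
    rw [mem_ball_zero_iff, EuclideanSpace.norm_eq] at hz
    have h1 : ∑ i, ‖z i‖ ^ 2 < 1 := by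
      by_contra hh
      have : (1 : ℝ) ≤ √(∑ i, ‖z i‖ ^ 2) := by
        rw [Real.one_le_sqrt]
        linarith
      linarith
    simp only [Fin.sum_univ_two, Real.norm_eq_abs, sq_abs] at h1
    have a1 : -1 ≤ z 0 ∧ z 0 ≤ 1 := by
      constructor <;> nlinarith [sq_nonneg (z 1), sq_nonneg (z 0)]
    have a2 : -1 ≤ z 1 ∧ z 1 ≤ 1 := by
      constructor <;> nlinarith [sq_nonneg (z 1), sq_nonneg (z 0)]
    unfold oct
    simp only [Set.mem_ofPred_eq]
    refine ⟨⟨?_, ?_⟩, ⟨?_, ?_⟩, ⟨?_, ?_⟩, ⟨?_, ?_⟩⟩ <;> linarith [a1.1, a1.2, a2.1, a2.2]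
  exact Filter.mem_of_superset (Metric.ball_mem_nhds _ one_pos) h

/-- A linear functional bounded by `c` on a set is `< c` on its interior. -/
theorem lt_of_mem_interior (A : Set (EuclideanSpace ℝ (Fin 2))) (a b c : ℝ)
    (hab : 0 < a ^ 2 + b ^ 2) (hA : ∀ z ∈ A, a * z 0 + b * z 1 ≤ c)
    (z : EuclideanSpace ℝ (Fin 2)) (hz : z ∈ interior A) : a * z 0 + b * z 1 < c := by
  have hcont : Continuous fun t : ℝ => z + t • (!₂[a, b] : EuclideanSpace ℝ (Fin 2)) := by
    fun_prop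
  have hopen : IsOpen ((fun t : ℝ => z + t • (!₂[a, b] : EuclideanSpace ℝ (Fin 2))) ⁻¹'
      interior A) := isOpen_interior.preimage hcont
  have h0 : (0 : ℝ) ∈ (fun t : ℝ => z + t • (!₂[a, b] : EuclideanSpace ℝ (Fin 2))) ⁻¹'
      interior A := by simpa using hz
  obtain ⟨ε, hε, hball⟩ := Metric.isOpen_iff.1 hopen 0 h0
  have h1 : (ε / 2) ∈ Metric.ball (0 : ℝ) ε := by
    rw [mem_ball_zero_iff, Real.norm_eq_abs, abs_of_pos (by linarith)]
    linarith
  have h2 := interior_subset (hball h1)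
  have h3 := hA _ h2
  have h4 : (z + (ε / 2) • (!₂[a, b] : EuclideanSpace ℝ (Fin 2))) 0 = z 0 + ε / 2 * a := rfl
  have h5 : (z + (ε / 2) • (!₂[a, b] : EuclideanSpace ℝ (Fin 2))) 1 = z 1 + ε / 2 * b := rfl
  simp only [h4, h5] at h3
  nlinarith

theorem interior_disj (x y : EuclideanSpace ℝ (Fin 2)) (a b c : ℝ) (hab : 0 < a ^ 2 + b ^ 2)
    (h1 : ∀ z ∈ oct, a * z 0 + b * z 1 ≤ c) (h2 : ∀ z ∈ oct, -a * z 0 + -b * z 1 ≤ c)
    (hxy : 2 * c ≤ a * (x 0 - y 0) + b * (x 1 - y 1)) :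
    interior ((fun z => x + z) '' oct) ∩ interior ((fun z => y + z) '' oct) = ∅ := by
  ext z
  simp only [Set.mem_inter_iff, Set.mem_empty_iff_false, iff_false, not_and]
  intro hx hy
  have e1 : -a * z 0 + -b * z 1 < c - a * x 0 - b * x 1 := by
    apply lt_of_mem_interior _ (-a) (-b) _ (by nlinarith) _ z hx
    rintro _ ⟨w, hw, rfl⟩
    have := h2 w hw
    simp only [PiLp.add_apply]
    linarith
  have e2 : a * z 0 + b * z 1 < c + a * y 0 + b * y 1 := by
    apply lt_of_mem_interior _ a b _ hab _ z hy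
    rintro _ ⟨w, hw, rfl⟩
    have := h1 w hw
    simp only [PiLp.add_apply]
    linarith
  linarith

/-- embedding of the integer lattice -/
noncomputable def emb (p : ℤ × ℤ) : EuclideanSpace ℝ (Fin 2) := !₂[(p.1 : ℝ), (p.2 : ℝ)]

theorem emb_injective : Function.Injective emb := by
  intro p q h
  have h0 : (emb p) 0 = (emb q) 0 := by rw [h]
  have h1 : (emb p) 1 = (emb q) 1 := by rw [h]
  have h0' : (p.1 : ℝ) = q.1 := h0
  have h1' : (p.2 : ℝ) = q.2 := h1
  ext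
  · exact_mod_cast h0'
  · exact_mod_cast h1'

theorem touch_emb (p q : ℤ × ℤ) (h : TouchZ (p - q)) :
    ((fun z => emb p + z) '' oct ∩ (fun z => emb q + z) '' oct).Nonempty ∧
      interior ((fun z => emb p + z) '' oct) ∩ interior ((fun z => emb q + z) '' oct) = ∅ := by
  obtain ⟨h1, h2, h3, h4⟩ := h
  simp only [Prod.fst_sub, Prod.snd_sub] at h1 h2 h3 h4
  have r1 : |(p.1 : ℝ) - q.1| ≤ 4 := by exact_mod_cast h1
  have r2 : |(p.2 : ℝ) - q.2| ≤ 4 := by exact_mod_cast h2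
  have r3 : |(p.1 : ℝ) - q.1| + |(p.2 : ℝ) - q.2| ≤ 6 := by exact_mod_cast h3
  have r4 : |(p.1 : ℝ) - q.1| = 4 ∨ |(p.2 : ℝ) - q.2| = 4 ∨
      |(p.1 : ℝ) - q.1| + |(p.2 : ℝ) - q.2| = 6 := by
    rcases h4 with h | h | h
    · left; exact_mod_cast h
    · right; left; exact_mod_cast h
    · right; right; exact_mod_cast h
  have ep0 : (emb p) 0 = (p.1 : ℝ) := rfl
  have ep1 : (emb p) 1 = (p.2 : ℝ) := rfl
  have eq0 : (emb q) 0 = (q.1 : ℝ) := rfl
  have eq1 : (emb q) 1 = (q.2 : ℝ) := rfl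
  constructor
  · -- the midpoint is a common point
    refine ⟨(1 / 2 : ℝ) • (emb p + emb q), ⟨(1 / 2 : ℝ) • (emb q - emb p), ?_, ?_⟩,
      ⟨(1 / 2 : ℝ) • (emb p - emb q), ?_, ?_⟩⟩
    · unfold oct
      simp only [Set.mem_ofPred_eq, PiLp.smul_apply, PiLp.sub_apply, smul_eq_mul, ep0, ep1, eq0,
        eq1]
      have a1 := abs_le.1 r1
      have a2 := abs_le.1 r2
      have b1 := le_abs_self ((p.1 : ℝ) - q.1)
      have b2 := neg_abs_le ((p.1 : ℝ) - q.1)
      have b3 := le_abs_self ((p.2 : ℝ) - q.2)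
      have b4 := neg_abs_le ((p.2 : ℝ) - q.2)
      refine ⟨⟨?_, ?_⟩, ⟨?_, ?_⟩, ⟨?_, ?_⟩, ⟨?_, ?_⟩⟩ <;> linarith [a1.1, a1.2, a2.1, a2.2]
    · simp only
      module
    · unfold oct
      simp only [Set.mem_ofPred_eq, PiLp.smul_apply, PiLp.sub_apply, smul_eq_mul, ep0, ep1, eq0,
        eq1]
      have a1 := abs_le.1 r1
      have a2 := abs_le.1 r2
      have b1 := le_abs_self ((p.1 : ℝ) - q.1)
      have b2 := neg_abs_le ((p.1 : ℝ) - q.1)
      have b3 := le_abs_self ((p.2 : ℝ) - q.2)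
      have b4 := neg_abs_le ((p.2 : ℝ) - q.2)
      refine ⟨⟨?_, ?_⟩, ⟨?_, ?_⟩, ⟨?_, ?_⟩, ⟨?_, ?_⟩⟩ <;> linarith [a1.1, a1.2, a2.1, a2.2]
    · simp only
      module
  · have bx : ∀ z ∈ oct, (1 : ℝ) * z 0 + 0 * z 1 ≤ 2 := fun z hz => by
      have := hz.1.1; linarith
    have bx' : ∀ z ∈ oct, (-1 : ℝ) * z 0 + 0 * z 1 ≤ 2 := fun z hz => by
      have := hz.1.2; linarith
    have by1 : ∀ z ∈ oct, (0 : ℝ) * z 0 + 1 * z 1 ≤ 2 := fun z hz => by
      have := hz.2.1.1; linarith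
    have by1' : ∀ z ∈ oct, (0 : ℝ) * z 0 + -1 * z 1 ≤ 2 := fun z hz => by
      have := hz.2.1.2; linarith
    have bpp : ∀ z ∈ oct, (1 : ℝ) * z 0 + 1 * z 1 ≤ 3 := fun z hz => by
      have := hz.2.2.1.1; linarith
    have bpm : ∀ z ∈ oct, (1 : ℝ) * z 0 + -1 * z 1 ≤ 3 := fun z hz => by
      have := hz.2.2.1.2; linarith
    have bmp : ∀ z ∈ oct, (-1 : ℝ) * z 0 + 1 * z 1 ≤ 3 := fun z hz => by
      have := hz.2.2.2.1; linarith
    have bmm : ∀ z ∈ oct, (-1 : ℝ) * z 0 + -1 * z 1 ≤ 3 := fun z hz => by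
      have := hz.2.2.2.2; linarith
    rcases r4 with h | h | h
    · rcases abs_choice ((p.1 : ℝ) - q.1) with hc | hc
      · apply interior_disj _ _ 1 0 2 (by norm_num) bx
        · intro z hz; have := bx' z hz; linarith
        · rw [ep0, ep1, eq0, eq1]; linarith
      · apply interior_disj _ _ (-1) 0 2 (by norm_num) bx'
        · intro z hz; have := bx z hz; linarith
        · rw [ep0, ep1, eq0, eq1]; linarith
    · rcases abs_choice ((p.2 : ℝ) - q.2) with hc | hc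
      · apply interior_disj _ _ 0 1 2 (by norm_num) by1
        · intro z hz; have := by1' z hz; linarith
        · rw [ep0, ep1, eq0, eq1]; linarith
      · apply interior_disj _ _ 0 (-1) 2 (by norm_num) by1'
        · intro z hz; have := by1 z hz; linarith
        · rw [ep0, ep1, eq0, eq1]; linarith
    · rcases abs_choice ((p.1 : ℝ) - q.1) with hc | hc <;>
        rcases abs_choice ((p.2 : ℝ) - q.2) with hd | hd
      · apply interior_disj _ _ 1 1 3 (by norm_num) bpp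
        · intro z hz; have := bmm z hz; linarith
        · rw [ep0, ep1, eq0, eq1]; linarith
      · apply interior_disj _ _ 1 (-1) 3 (by norm_num) bpm
        · intro z hz; have := bmp z hz; linarith
        · rw [ep0, ep1, eq0, eq1]; linarith
      · apply interior_disj _ _ (-1) 1 3 (by norm_num) bmp
        · intro z hz; have := bpm z hz; linarith
        · rw [ep0, ep1, eq0, eq1]; linarith
      · apply interior_disj _ _ (-1) (-1) 3 (by norm_num) bmm
        · intro z hz; have := bpp z hz; linarith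
        · rw [ep0, ep1, eq0, eq1]; linarith

/-- If `m` exceeds the bound of `box_bound` then the `n × n` box of lattice points has the
touching property for `m`. -/
theorem oct_box (n m : ℕ) (hm : 2438 * (n + 12) ^ 2 < 9755 * m) :
    ∃ T : Finset (EuclideanSpace ℝ (Fin 2)),
    (∀ S ⊆ T, S.card = m → ∃ x ∈ S, ∃ y ∈ S, x ≠ y ∧
      ((fun z => x + z) '' oct ∩ (fun z => y + z) '' oct).Nonempty ∧
      interior ((fun z => x + z) '' oct) ∩ interior ((fun z => y + z) '' oct) = ∅) ∧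
    T.card = n * n := by
  classical
  refine ⟨(Ico (0 : ℤ) n ×ˢ Ico (0 : ℤ) n).image emb, ?_, ?_⟩
  · intro S hST hcard
    by_contra hno
    push Not at hno
    -- pull back to the lattice
    let S₀ : Finset (ℤ × ℤ) := (Ico (0 : ℤ) n ×ˢ Ico (0 : ℤ) n).filter fun p => emb p ∈ S
    have himg : S₀.image emb = S := by
      ext z
      simp only [S₀, mem_image, mem_filter]
      constructor
      · rintro ⟨p, ⟨_, hp⟩, rfl⟩; exact hp
      · intro hz
        obtain ⟨p, hp, rfl⟩ := mem_image.1 (hST hz)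
        exact ⟨p, ⟨hp, hz⟩, rfl⟩
    have hcard0 : S₀.card = m := by
      rw [← hcard, ← himg, card_image_of_injective _ emb_injective]
    have hind : ∀ p ∈ S₀, ∀ q ∈ S₀, ¬ TouchZ (p - q) := by
      intro p hp q hq ht
      have hpS : emb p ∈ S := (mem_filter.1 hp).2
      have hqS : emb q ∈ S := (mem_filter.1 hq).2
      have hne : emb p ≠ emb q := by
        intro h
        have h' := emb_injective h
        rw [h', sub_self] at ht
        obtain ⟨_, _, _, h4⟩ := ht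
        simp at h4
      obtain ⟨t1, t2⟩ := touch_emb p q ht
      exact (hno _ hpS _ hqS hne t1).ne_empty t2
    have hb := box_bound n S₀ (filter_subset _ _) hind
    rw [hcard0] at hb
    omega
  · rw [card_image_of_injective _ emb_injective, card_product, Int.card_Ico]
    simp

/-- The octagon has `m`-th touching number greater than `4 (m - 1)` for a suitable `m > 2`. -/
theorem oct_large : ∃ m : ℕ, 2 < m ∧ ∃ T : Finset (EuclideanSpace ℝ (Fin 2)),
    (∀ S ⊆ T, S.card = m → ∃ x ∈ S, ∃ y ∈ S, x ≠ y ∧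
      ((fun z => x + z) '' oct ∩ (fun z => y + z) '' oct).Nonempty ∧
      interior ((fun z => x + z) '' oct) ∩ interior ((fun z => y + z) '' oct) = ∅) ∧
    (m - 1) * 2 ^ 2 < T.card := by
  obtain ⟨T, h1, h2⟩ := oct_box 100000 (2438 * (100000 + 12) ^ 2 / 9755 + 1) (by norm_num)
  refine ⟨_, by norm_num, T, h1, ?_⟩
  rw [h2]
  norm_num

end Pool.Agent.Helper27_Touch
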