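import Pool.Agent.Helper27_Touch.Check

set_option autoImplicit false

namespace Pool.Agent.Helper27_Touch

open Finset

/-- weight of the part of a demand list that lies in `S` -/
noncomputable def wt (S : ℕ → Prop) [DecidablePred S] : List (ℕ × ℕ) → ℕ
  | [] => 0
  | e :: P => (if S e.1 then e.2 else 0) + wt S P

/-- how often a code is covered by the weighted triangles -/
def cov : List (ℕ × ℕ × ℕ) → ℕ → ℕ
  | [], _ => 0
  | e :: l, i =>
      ((if i = e.2.1 then e.2.2 else 0) + (if i = e.2.1 + offA e.1 then e.2.2 else 0) +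
        (if i = e.2.1 + offB e.1 then e.2.2 else 0)) + cov l i

theorem off_cases (t : ℕ) :
    (offA t = 28 ∧ offB t = 127) ∨ (offA t = 60 ∧ offB t = 128) ∨ (offA t = 93 ∧ offB t = 129) ∨
    (offA t = 126 ∧ offB t = 130) ∨ (offA t = 99 ∧ offB t = 127) ∨ (offA t = 4 ∧ offB t = 130) ∨
    (offA t = 36 ∧ offB t = 129) ∨ (offA t = 68 ∧ offB t = 128) := by
  match t with
  | 0 => simp [offA, offB]
  | 1 => simp [offA, offB]
  | 2 => simp [offA, offB]
  | 3 => simp [offA, offB]
  | 4 => simp [offA, offB]
  | 5 => simp [offA, offB]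
  | 6 => simp [offA, offB]
  | (n + 7) => simp [offA, offB]

theorem adjb_add (p k : ℕ) : adjb p (p + k) = ((dmask >>> k) % 2 == 1) := by
  unfold adjb
  have : (p - (p + k)) + ((p + k) - p) = k := by omega
  rw [this]

theorem adjb_off (p a b : ℕ) (hab : a < b) :
    adjb (p + a) (p + b) = ((dmask >>> (b - a)) % 2 == 1) := by
  have h : p + b = (p + a) + (b - a) := by omega
  rw [h, adjb_add]

theorem tri_adj (t p : ℕ) :
    adjb p (p + offA t) = true ∧ adjb p (p + offB t) = true ∧
      adjb (p + offA t) (p + offB t) = true := by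
  rcases off_cases t with h | h | h | h | h | h | h | h <;>
  · obtain ⟨h1, h2⟩ := h
    rw [h1, h2]
    refine ⟨?_, ?_, ?_⟩
    · rw [adjb_add]; decide +kernel
    · rw [adjb_add]; decide +kernel
    · rw [adjb_off _ _ _ (by norm_num)]; decide +kernel

theorem cov_le_mass (l : List (ℕ × ℕ × ℕ)) (i : ℕ) : cov l i ≤ mass l := by
  induction l with
  | nil => simp [cov]
  | cons e l ih =>
    unfold cov mass
    have h : (if i = e.2.1 then e.2.2 else 0) + (if i = e.2.1 + offA e.1 then e.2.2 else 0) +
        (if i = e.2.1 + offB e.1 then e.2.2 else 0) ≤ e.2.2 := by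
      rcases off_cases e.1 with h | h | h | h | h | h | h | h <;>
      · obtain ⟨h1, h2⟩ := h
        rw [h1, h2]
        split_ifs <;> omega
    omega

theorem code_eq (l : List (ℕ × ℕ × ℕ)) :
    ∃ N, ∀ n, N ≤ n → code l = ∑ i ∈ range n, cov l i * (2 ^ 12) ^ i := by
  induction l with
  | nil => exact ⟨0, fun n _ => by simp [code, cov]⟩
  | cons e l ih =>
    obtain ⟨N, hN⟩ := ih
    refine ⟨max N (e.2.1 + 131), fun n hn => ?_⟩
    have hn1 : N ≤ n := le_trans (le_max_left _ _) hn
    have hn2 : e.2.1 + 131 ≤ n := le_trans (le_max_right _ _) hn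
    have hA : offA e.1 ≤ 130 ∧ offB e.1 ≤ 130 := by
      rcases off_cases e.1 with h | h | h | h | h | h | h | h <;> omega
    unfold code cov
    simp only [add_mul, sum_add_distrib]
    rw [hN n hn1]
    have key : ∀ q, q < n →
        ∑ i ∈ range n, (if i = q then e.2.2 else 0) * (2 ^ 12) ^ i = e.2.2 * (2 ^ 12) ^ q := by
      intro q hq
      rw [Finset.sum_eq_single q]
      · simp
      · intro b _ hb; simp [hb]
      · intro h; exact absurd (mem_range.2 hq) h
    rw [key _ (by omega), key _ (by omega), key _ (by omega)]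
    unfold tri
    simp only [← pow_mul, pow_add, mul_add, add_mul]
    ring

theorem dig_le (u : ℕ) : ∀ (n : ℕ) (f : ℕ → ℕ), (∀ i, f i < 2 ^ 12) →
    dig (∑ i ∈ range n, f i * (2 ^ 12) ^ i) u ≤ f u := by
  induction u with
  | zero =>
    intro n f hf
    cases n with
    | zero => simp [dig]
    | succ n =>
      rw [sum_range_succ']
      have h : ∑ k ∈ range n, f (k + 1) * (2 ^ 12) ^ (k + 1) + f 0 * (2 ^ 12) ^ 0 =
          f 0 + (2 ^ 12) * ∑ k ∈ range n, f (k + 1) * (2 ^ 12) ^ k := by
        rw [mul_sum, add_comm]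
        congr 1
        · simp
        · exact sum_congr rfl fun k _ => by ring
      rw [h]
      unfold dig
      simp only [mul_zero, pow_zero, Nat.div_one]
      rw [Nat.add_mul_mod_self_left, Nat.mod_eq_of_lt (hf 0)]
  | succ u ih =>
    intro n f hf
    cases n with
    | zero => simp [dig]
    | succ n =>
      rw [sum_range_succ']
      have h : ∑ k ∈ range n, f (k + 1) * (2 ^ 12) ^ (k + 1) + f 0 * (2 ^ 12) ^ 0 =
          f 0 + (2 ^ 12) * ∑ k ∈ range n, f (k + 1) * (2 ^ 12) ^ k := by
        rw [mul_sum, add_comm]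
        congr 1
        · simp
        · exact sum_congr rfl fun k _ => by ring
      rw [h]
      have h2 : dig (f 0 + (2 ^ 12) * ∑ k ∈ range n, f (k + 1) * (2 ^ 12) ^ k) (u + 1) =
          dig (∑ k ∈ range n, f (k + 1) * (2 ^ 12) ^ k) u := by
        unfold dig
        have h3 : 2 ^ (12 * (u + 1)) = 2 ^ 12 * 2 ^ (12 * u) := by ring
        rw [h3, ← Nat.div_div_eq_div_mul, Nat.add_mul_div_left _ _ (by positivity),
          Nat.div_eq_of_lt (hf 0), zero_add]
      rw [h2]
      exact ih n (fun i => f (i + 1)) (fun i => hf _)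

theorem wt_point (S : ℕ → Prop) [DecidablePred S] (q : ℕ) (P : List (ℕ × ℕ))
    (hP : (P.map Prod.fst).Nodup) (m : ℕ) :
    wt S (P.map fun e => (e.1, if e.1 = q then m else 0)) ≤ if S q then m else 0 := by
  induction P with
  | nil => simp [wt]
  | cons e P ih =>
    simp only [List.map_cons, List.nodup_cons] at hP
    obtain ⟨h1, h2⟩ := hP
    simp only [List.map_cons, wt]
    by_cases he : e.1 = q
    · have hz : wt S (P.map fun e => (e.1, if e.1 = q then m else 0)) = 0 := by
        clear ih h2
        induction P with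
        | nil => simp [wt]
        | cons e' P ih' =>
          simp only [List.map_cons, List.mem_cons, not_or] at h1
          simp only [List.map_cons, wt]
          rw [ih' h1.2]
          have : ¬ e'.1 = q := fun h => h1.1 (by rw [h, he])
          simp [this]
      rw [hz, he]
      simp
    · have := ih h2
      simp [he, this]

theorem wt_add (S : ℕ → Prop) [DecidablePred S] (f g : ℕ → ℕ) (P : List (ℕ × ℕ)) :
    wt S (P.map fun e => (e.1, f e.1 + g e.1)) =
      wt S (P.map fun e => (e.1, f e.1)) + wt S (P.map fun e => (e.1, g e.1)) := by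
  induction P with
  | nil => simp [wt]
  | cons e P ih =>
    simp only [List.map_cons, wt]
    rw [ih]
    split_ifs <;> omega

theorem wt_cov (S : ℕ → Prop) [DecidablePred S] (hS : Indep S) (P : List (ℕ × ℕ))
    (hP : (P.map Prod.fst).Nodup) (l : List (ℕ × ℕ × ℕ)) :
    wt S (P.map fun e => (e.1, cov l e.1)) ≤ mass l := by
  induction l with
  | nil =>
    have : wt S (P.map fun e => (e.1, cov [] e.1)) = 0 := by
      clear hP
      induction P with
      | nil => simp [wt]
      | cons e P ih => simp only [List.map_cons, wt, ih]; simp [cov]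
    simp [this]
  | cons e l ih =>
    have h0 : wt S (P.map fun x => (x.1, cov (e :: l) x.1)) =
        ((wt S (P.map fun x => (x.1, if x.1 = e.2.1 then e.2.2 else 0)) +
        wt S (P.map fun x => (x.1, if x.1 = e.2.1 + offA e.1 then e.2.2 else 0))) +
        wt S (P.map fun x => (x.1, if x.1 = e.2.1 + offB e.1 then e.2.2 else 0))) +
        wt S (P.map fun x => (x.1, cov l x.1)) := by
      rw [← wt_add S (fun i => if i = e.2.1 then e.2.2 else 0)
        (fun i => if i = e.2.1 + offA e.1 then e.2.2 else 0) P]
      rw [← wt_add S (fun i => (if i = e.2.1 then e.2.2 else 0) +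
        (if i = e.2.1 + offA e.1 then e.2.2 else 0))
        (fun i => if i = e.2.1 + offB e.1 then e.2.2 else 0) P]
      rw [← wt_add S (fun i => ((if i = e.2.1 then e.2.2 else 0) +
        (if i = e.2.1 + offA e.1 then e.2.2 else 0)) +
        (if i = e.2.1 + offB e.1 then e.2.2 else 0)) (cov l) P]
      rfl
    rw [h0]
    have h1 := wt_point S e.2.1 P hP e.2.2
    have h2 := wt_point S (e.2.1 + offA e.1) P hP e.2.2
    have h3 := wt_point S (e.2.1 + offB e.1) P hP e.2.2
    obtain ⟨t1, t2, t3⟩ := tri_adj e.1 e.2.1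
    have g1 : ¬ (S e.2.1 ∧ S (e.2.1 + offA e.1)) := fun h => by
      have := hS _ _ h.1 h.2; rw [t1] at this; cases this
    have g2 : ¬ (S e.2.1 ∧ S (e.2.1 + offB e.1)) := fun h => by
      have := hS _ _ h.1 h.2; rw [t2] at this; cases this
    have g3 : ¬ (S (e.2.1 + offA e.1) ∧ S (e.2.1 + offB e.1)) := fun h => by
      have := hS _ _ h.1 h.2; rw [t3] at this; cases this
    have hsum : ((if S e.2.1 then e.2.2 else 0) + (if S (e.2.1 + offA e.1) then e.2.2 else 0)) +
        (if S (e.2.1 + offB e.1) then e.2.2 else 0) ≤ e.2.2 := by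
      by_cases a1 : S e.2.1 <;> by_cases a2 : S (e.2.1 + offA e.1) <;>
        by_cases a3 : S (e.2.1 + offB e.1) <;> simp_all
    unfold mass
    omega

theorem wt_mono (S : ℕ → Prop) [DecidablePred S] (g : ℕ → ℕ) (P : List (ℕ × ℕ))
    (h : ∀ e ∈ P, e.2 ≤ g e.1) : wt S P ≤ wt S (P.map fun e => (e.1, g e.1)) := by
  induction P with
  | nil => simp [wt]
  | cons e P ih =>
    simp only [List.map_cons, wt]
    have h1 := h e (by simp)
    have h2 := ih fun e he => h e (by simp [he])
    split_ifs <;> omega

theorem covers_mem (A : ℕ) (P : List (ℕ × ℕ)) (h : covers A P = true) :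
    ∀ e ∈ P, e.2 ≤ dig A e.1 := by
  induction P with
  | nil => simp
  | cons e P ih =>
    unfold covers at h
    rw [Bool.and_eq_true] at h
    intro e' he'
    rcases List.mem_cons.1 he' with rfl | h'
    · exact Nat.le_of_ble_eq_true h.1
    · exact ih h.2 e' h'

theorem rem1_sublist (v : ℕ) (P : List (ℕ × ℕ)) : (rem1 v P).Sublist P := by
  induction P with
  | nil => simp [rem1]
  | cons e P ih =>
    unfold rem1
    split_ifs
    · exact ih.cons _
    · exact ih.cons_cons _

theorem rem2_sublist (v : ℕ) (P : List (ℕ × ℕ)) : (rem2 v P).Sublist P := by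
  induction P with
  | nil => simp [rem2]
  | cons e P ih =>
    unfold rem2
    split_ifs
    · exact ih.cons _
    · exact ih.cons_cons _

theorem wt_rem1 (S : ℕ → Prop) [DecidablePred S] (v : ℕ) (hv : ¬ S v) (P : List (ℕ × ℕ)) :
    wt S P ≤ wt S (rem1 v P) := by
  induction P with
  | nil => simp [rem1, wt]
  | cons e P ih =>
    unfold rem1
    by_cases he : e.1 = v
    · have : ¬ S e.1 := by rw [he]; exact hv
      simp only [he, beq_self_eq_true, if_true, wt]
      simp [hv, ih]
    · have h' : (e.1 == v) = false := by simp [he]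
      simp only [h', wt]
      simp [wt, ih]

theorem wt_rem2 (S : ℕ → Prop) [DecidablePred S] (hS : Indep S) (v : ℕ) (hv : S v)
    (P : List (ℕ × ℕ)) : wt S P ≤ dem v P + wt S (rem2 v P) := by
  induction P with
  | nil => simp [rem2, wt]
  | cons e P ih =>
    unfold rem2 dem
    by_cases he : e.1 = v
    · simp only [he, beq_self_eq_true, if_true, wt, hv, Bool.true_or]
      omega
    · have h' : (e.1 == v) = false := by simp [he]
      by_cases ha : adjb e.1 v = true
      · have hne : ¬ S e.1 := fun h => by
          have := hS _ _ h hv; rw [ha] at this; cases this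
        simp only [h', ha, Bool.or_true, if_true, wt, hne, if_false]
        simpa using ih
      · have ha' : adjb e.1 v = false := by simpa using ha
        simp only [h', ha', Bool.or_false, wt]
        simp only [Bool.false_eq_true, if_false, wt]
        omega

theorem check_sound (S : ℕ → Prop) [DecidablePred S] (hS : Indep S) (c : Cert) :
    ∀ (P : List (ℕ × ℕ)) (bd : ℕ), (P.map Prod.fst).Nodup → check c P bd = true →
      wt S P ≤ bd := by
  induction c with
  | leaf k c =>
    intro P bd hP h
    unfold check at h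
    rw [Bool.and_eq_true, Bool.and_eq_true] at h
    obtain ⟨h1, h2, h3⟩ := h
    have h1' := Nat.le_of_ble_eq_true h1
    have h2' : mass (unpack k c) < 2 ^ 12 := by
      have := Nat.le_of_ble_eq_true h2
      omega
    obtain ⟨N, hN⟩ := code_eq (unpack k c)
    have h4 : ∀ e ∈ P, e.2 ≤ cov (unpack k c) e.1 := by
      intro e he
      have h5 := covers_mem _ _ h3 e he
      rw [hN N le_rfl] at h5
      exact h5.trans (dig_le _ _ _ fun i => lt_of_le_of_lt (cov_le_mass _ i) h2')
    calc wt S P ≤ wt S (P.map fun e => (e.1, cov (unpack k c) e.1)) := wt_mono S _ P h4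
      _ ≤ mass (unpack k c) := wt_cov S hS P hP _
      _ ≤ bd := h1'
  | branch v a b iha ihb =>
    intro P bd hP h
    unfold check at h
    rw [Bool.and_eq_true, Bool.and_eq_true] at h
    obtain ⟨h1, h2, h3⟩ := h
    have h1' := Nat.le_of_ble_eq_true h1
    by_cases hv : S v
    · have h4 := iha _ _ (hP.sublist ((rem2_sublist v P).map _)) h2
      have h5 := wt_rem2 S hS v hv P
      omega
    · have h4 := ihb _ _ (hP.sublist ((rem1_sublist v P).map _)) h3
      have h5 := wt_rem1 S v hv P
      omega

end Pool.Agent.Helper27_Touch
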